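import Pool.Agent.Lib.LU3_h87.FG
import Pool.Agent.Lib.LU3.ZStep
import Pool.Agent.Lib.D2_h2.Drop

/-! # Case (*), `v(L₀)` finitely generated -/

set_option autoImplicit false

namespace Pool.Agent.LU3S

open Pool.Agent.H15JM (RVal)
open Pool.Agent.LU1 Pool.Agent.LU3
open Polynomial

universe u

variable {k Ω : Type u} [Field k] [Field Ω] [Algebra k Ω] {v : RVal Ω} {r : ℕ}

/-- There is a near root. -/
theorem exists_near {E : Type u} [Field E] [IsAlgClosed E] {w : RVal E} {A : Polynomial E}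
    {m : ℕ} (hA : D2.Ord0 w A m) (hm : 0 < m) : ∃ ζ, A.eval ζ = 0 ∧ VPos w ζ := by
  classical
  have h1 := (hA.count (IsAlgClosed.splits A)).1
  have h2 : 0 < D2.cP w A.roots := by rw [h1]; exact hm
  unfold D2.cP at h2
  obtain ⟨ζ, hζ⟩ := Multiset.card_pos_iff_exists_mem.1 h2
  rw [Multiset.mem_filter] at hζ
  exact ⟨ζ, (mem_roots hA.ne_zero).1 hζ.1, hζ.2⟩

/-- **Case (*), `v(L₀)` finitely generated.** -/
theorem stepFG (p : ℕ) (hp : p.Prime) [CharP k p] [IsAlgClosed k] :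
    StepIf k Ω v r (CondFG v) := by
  intro Ω₀ z hcl hC B L₀ hL F hF A m hm hA hcond
  obtain ⟨hstar, hfg⟩ := hcond
  have hne : ∀ x : Ω₀, z - (x : Ω) ≠ 0 := by
    intro x h0
    apply hC.z_not
    rw [sub_eq_zero.1 h0]
    exact x.2
  have hord : D2.Ord0 (resv v Ω₀) A m :=
    ⟨fun j => B.nonneg _ (hA.mem j), hA.unit.2.1, hA.unit.2.2, hA.low⟩
  obtain ⟨ζ₀, hζA, hζ0⟩ := exists_near hord hm
  have hn0 : LU3.Near v A ζ₀ := ⟨hζA, hζ0⟩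
  -- the distances
  have hdist : ∀ ψ ∈ L₀, ζ₀ ≠ ψ ∧ resv v Ω₀ (ζ₀ - ψ) = v (z - (ψ : Ω)) := by
    intro ψ hψ
    have h1 := (hstar ψ hψ).2 ζ₀ hn0
    have h2 := v.add_of_lt (hne ψ) (neg_ne_zero.2 (hne ζ₀)) (by
      rw [v.map_neg _ (hne ζ₀)]; exact h1)
    have h3 : z - (ψ : Ω) + -(z - (ζ₀ : Ω)) = ((ζ₀ - ψ : Ω₀) : Ω) := by
      push_cast; ring
    rw [h3] at h2
    refine ⟨?_, h2.2⟩
    rintro rfl
    exact lt_irrefl _ h1
  obtain ⟨S, hTS, ψ, hψ, a, ha, ha0, hzψ, hlt, h7, l, hl, h8⟩ :=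
    fg_core (row6 (k := k) (Ω := Ω₀) (v := resv v Ω₀) (r := r)) p hp hC.c1 B hF.rat hL hm
      hA.mem hA.low hA.unit hζA hζ0
      (fun ψ hψ => by
        obtain ⟨h1, h2⟩ := hdist ψ hψ
        obtain ⟨g, hg, hg0, hvg⟩ := (hstar ψ hψ).1
        exact ⟨h1, g, hg, hg0, hvg.trans h2.symm⟩)
      (fun ζ hζ hp0 hsub ψ hψ => by
        rw [(hdist ψ hψ).2]
        have h1 := (hstar ψ hψ).2 ζ₀ hn0
        have h2 := (hstar ψ hψ).2 ζ ⟨hζ, hp0⟩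
        have h3 : ((ζ₀ - ζ : Ω₀) : Ω) = (z - (ζ : Ω)) + -(z - (ζ₀ : Ω)) := by
          push_cast; ring
        have h4 : (z - (ζ : Ω)) + -(z - (ζ₀ : Ω)) ≠ 0 := by
          rw [← h3]
          exact fun h0 => hsub (Subtype.ext h0)
        have h5 := v.map_add (hne ζ) (neg_ne_zero.2 (hne ζ₀)) h4
        rw [v.map_neg _ (hne ζ₀), ← h3] at h5
        exact (lt_min h2 h1).trans_le h5)
      ⟨v (z - (ζ₀ : Ω)), fun ψ hψ => by
        rw [(hdist ψ hψ).2]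
        exact ((hstar ψ hψ).2 ζ₀ hn0).le⟩ hfg
  have hψL : ψ ∈ L₀ := (hTS.fracIs hL).1 ψ hψ
  have hχa : ((S.χ a : Ω₀) : Ω) ≠ 0 := coe_ne (S.χ_ne a ha)
  have hvψ : a < v (z - (ψ : Ω)) := by
    rw [← (hdist ψ hψL).2]
    exact hlt
  obtain ⟨F', hFF', hF'⟩ := exists_z0 hC hF hTS.ble (hTS.brat hF.rat) hψ ha ha0.le (c := 0)
    (z' := (z - (ψ : Ω)) / ((S.χ a : Ω₀) : Ω) - algebraMap k Ω 0) rfl (by
      rw [map_zero, sub_zero, v.map_div (hne ψ) hχa]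
      have h1 : v ((S.χ a : Ω₀) : Ω) = a := S.χ_val a ha
      rw [h1]
      linarith)
  refine drop_of hFF' hF' ha ?_ h7 ?_ hl
  · rw [map_zero, sub_zero, mul_div_cancel₀ _ hχa]
    ring
  · rw [neg_mul]
    exact h8

end Pool.Agent.LU3S
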