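import Pool.Agent.Lib.LU3_h87.Row8a
import Pool.Agent.Lib.D2_h2.Density
import Pool.Agent.Lib.D2_h2.Row8b
import Pool.Agent.Lib.D2_h17.Kap4
import Pool.Agent.Lib.D2_h22.Row6

/-! # Case (*), `v(L₀)` finitely generated: the one-parameter part -/

set_option autoImplicit false

namespace Pool.Agent.LU3S

open Pool.Agent.H15JM (RVal)
open Pool.Agent.LU1 Pool.Agent.LU3
open Polynomial

universe u

variable {k Ω : Type u} [Field k] [Field Ω] [Algebra k Ω] {v : RVal Ω} {r : ℕ}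

/-- The monomials of a frame are in the field. -/
theorem χ_mem_field (B : BF k v) {E : IntermediateField k Ω} (hE : FracIs B.R E) {γ : ℝ}
    (hγ : γ ∈ B.Γ) : B.χ γ ∈ E := by
  rcases le_total 0 γ with h0 | h0
  · exact hE.1 _ (B.χ_mem γ hγ h0)
  · have h1 := hE.1 _ (B.χ_mem (-γ) (B.Γ.neg_mem hγ) (by linarith))
    rw [B.χ_neg hγ] at h1
    simpa using E.inv_mem h1

/-- The exponents of a frame are values of the field. -/
theorem Γ_le_vgp (B : BF k v) {E : IntermediateField k Ω} (hE : FracIs B.R E) :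
    B.Γ ≤ vgp v E := fun γ hγ => ⟨B.χ γ, χ_mem_field B hE hγ, B.χ_ne γ hγ, B.χ_val γ hγ⟩

/-- If the values of the field are generated by values of monomials they are the exponents. -/
theorem Γ_eq_vgp (B : BF k v) {E : IntermediateField k Ω} (hE : FracIs B.R E)
    {G : AddSubgroup ℝ} (hG : G = vgp v E) {s : Finset ℝ} (hs : AddSubgroup.closure (s : Set ℝ) = G)
    {φ : ℝ → Ω} (hφ : ∀ γ ∈ s, v (φ γ) = γ ∧ B.Mono (φ γ)) : B.Γ = G := by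
  refine le_antisymm (by rw [hG]; exact Γ_le_vgp B hE) ?_
  rw [← hs, AddSubgroup.closure_le]
  intro γ hγ
  obtain ⟨h1, h2⟩ := hφ γ hγ
  rw [← h1]
  exact h2.2.1

/-- The ratios of the monomials of two frames are units if this is so on generators. -/
theorem ratio_un (S C : BF k v) (hΓ : C.Γ = S.Γ) {s : Finset ℝ}
    (hs : AddSubgroup.closure (s : Set ℝ) = S.Γ) (hm : ∀ γ ∈ s, C.Mono (S.χ γ)) :
    ∀ γ ∈ S.Γ, C.Un (S.χ γ / C.χ γ) := by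
  intro γ hγ
  have hγ' : γ ∈ AddSubgroup.closure (s : Set ℝ) := by rw [hs]; exact hγ
  induction hγ' using AddSubgroup.closure_induction with
  | mem x hx =>
    have h1 := (hm x hx).2.2
    rwa [S.χ_val x hγ] at h1
  | zero =>
    rw [S.χ_zero, C.χ_zero, div_one]
    exact BF.Un.one
  | add x y hx hy h1 h2 =>
    rw [hs] at hx hy
    have h3 := (h1 hx).mul (h2 hy)
    rw [S.χ_add x hx y hy, C.χ_add x (by rw [hΓ]; exact hx) y (by rw [hΓ]; exact hy),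
      ← div_mul_div_comm]
    exact h3
  | neg x hx h1 =>
    rw [hs] at hx
    have h2 := (h1 hx).inv
    rw [S.χ_neg hx, C.χ_neg (by rw [hΓ]; exact hx)]
    rw [inv_div] at h2
    rwa [inv_div_inv]

/-- Everything is algebraic over the field of a frame. -/
theorem alg_field (B : BF k v) {E : IntermediateField k Ω} (hE : FracIs B.R E) (g : Ω) :
    IsAlgebraic E g := by
  have h1 : B.R ≤ E.toSubalgebra := fun f hf => hE.1 f hf
  exact isAlgebraic_of_le h1 (B.alg g)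

theorem alg_field_le {E E' : IntermediateField k Ω} (h : E ≤ E') {g : Ω}
    (hg : IsAlgebraic E g) : IsAlgebraic E' g := by
  have h1 : E.toSubalgebra ≤ E'.toSubalgebra := fun f hf => h hf
  exact isAlgebraic_of_le h1 hg

/-- The elements of `L₀(η)` are polynomials in `η` of small degree. -/
theorem exists_poly {L₀ : IntermediateField k Ω} {G : Polynomial L₀} (hG : G.Monic)
    (hd : 0 < G.natDegree) {η : Ω} (hη : aeval η G = 0) {g : Ω} (hg : g ∈ adj L₀ η) :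
    ∃ P : Polynomial L₀, P.natDegree < G.natDegree ∧ aeval η P = g := by
  have hint : IsIntegral L₀ η := ⟨G, hG, by rw [← aeval_def]; exact hη⟩
  have h1 : adj L₀ η ≤ (IntermediateField.adjoin L₀ {η}).restrictScalars k := by
    refine sup_le ?_ ?_
    · intro x hx
      exact (IntermediateField.adjoin L₀ {η}).algebraMap_mem ⟨x, hx⟩
    · rw [IntermediateField.adjoin_le_iff]
      intro x hx
      rw [Set.mem_singleton_iff] at hx
      subst hx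
      exact IntermediateField.mem_adjoin_simple_self L₀ x
  have h2 : g ∈ IntermediateField.adjoin L₀ {η} := h1 hg
  have h3 : g ∈ (IntermediateField.adjoin L₀ {η}).toSubalgebra := h2
  rw [IntermediateField.adjoin_simple_toSubalgebra_of_isAlgebraic hint.isAlgebraic,
    Algebra.adjoin_singleton_eq_range_aeval] at h3
  obtain ⟨Q, hQ⟩ := h3
  have hG1 : G ≠ 1 := by
    rintro rfl
    simp at hd
  refine ⟨Q %ₘ G, natDegree_modByMonic_lt Q hG hG1, ?_⟩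
  rw [aeval_modByMonic_eq_self_of_root hη]
  exact hQ

theorem adj_fg {L₀ : IntermediateField k Ω} (h : ∃ S : Finset Ω, L₀ = IntermediateField.adjoin k (S : Set Ω))
    (η : Ω) : ∃ S : Finset Ω, adj L₀ η = IntermediateField.adjoin k (S : Set Ω) := by
  classical
  obtain ⟨S, hS⟩ := h
  refine ⟨S ∪ {η}, ?_⟩
  rw [Finset.coe_union, Finset.coe_singleton, IntermediateField.adjoin_union, ← hS]
  rfl

open Classical in
/-- (*), `v(L₀)` finitely generated: the one-parameter part. -/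
theorem fg_core (h6 : Row6 k Ω v r) (p : ℕ) (hp : p.Prime) [hc : CharP k p]
    [hk : IsAlgClosed k] [IsAlgClosed Ω] (h : Ctx k v r) (B : BF k v) (hB : BRat B)
    {L₀ : IntermediateField k Ω} (hL : FracIs B.R L₀) {A : Polynomial Ω} {m : ℕ} (hm : 0 < m)
    (hA : ∀ j, A.coeff j ∈ B.R) (hAl : ∀ j < m, VPos v (A.coeff j)) (hAm : B.Un (A.coeff m))
    {ζ₀ : Ω} (hζA : A.eval ζ₀ = 0) (hζ0 : VPos v ζ₀)
    (hs1 : ∀ ψ ∈ L₀, ζ₀ ≠ ψ ∧ ∃ g ∈ L₀, g ≠ 0 ∧ v g = v (ζ₀ - ψ))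
    (hs2 : ∀ ζ, A.eval ζ = 0 → VPos v ζ → ζ₀ - ζ ≠ 0 → ∀ ψ ∈ L₀, v (ζ₀ - ψ) < v (ζ₀ - ζ))
    (hbd : ∃ β : ℝ, ∀ ψ ∈ L₀, v (ζ₀ - ψ) ≤ β) (hfg : (vgp v L₀).FG) :
    ∃ S : BF k v, TReach B S ∧ ∃ ψ ∈ S.R, ∃ a ∈ S.Γ, 0 < a ∧ ζ₀ - ψ ≠ 0 ∧ a < v (ζ₀ - ψ) ∧
      (∀ j, (hasseDeriv j A).eval ψ * S.χ (((j : ℝ) - m) * a) ∈ S.R) ∧
        ∃ l < m, S.Rep (A.eval ψ * S.χ (-((m : ℝ) * a))) 0 l := by
  -- the polynomial over `L₀`
  obtain ⟨A₀, hA₀⟩ : ∃ A₀ : Polynomial L₀, A₀.map (algebraMap L₀ Ω) = A := by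
    have h1 : A ∈ Polynomial.lifts (algebraMap L₀ Ω) := by
      rw [Polynomial.lifts_iff_coeff_lifts]
      intro n
      exact ⟨⟨A.coeff n, hL.1 _ (hA n)⟩, rfl⟩
    rwa [Polynomial.mem_lifts] at h1
  have hAne : A ≠ 0 := by
    rintro rfl
    exact hAm.2.1 (coeff_zero m)
  have hA₀ne : A₀ ≠ 0 := by
    rintro rfl
    rw [Polynomial.map_zero] at hA₀
    exact hAne hA₀.symm
  -- the star condition
  have hs : D2.Star L₀ v ζ₀ := by
    refine D2.Star.of_residue (fun ψ => ?_) (fun x hx hvx => ?_) (fun ψ => ?_)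
    · exact sub_ne_zero.2 (hs1 ψ ψ.2).1
    · obtain ⟨c, -, hc1⟩ := h.res x hx hvx
      refine ⟨algebraMap k L₀ c, ?_⟩
      rw [← IsScalarTower.algebraMap_apply k L₀ Ω]
      exact hc1
    · obtain ⟨g, hg, hg0, hvg⟩ := (hs1 ψ ψ.2).2
      refine ⟨⟨g, hg⟩, fun h0 => hg0 (congrArg Subtype.val h0), ?_⟩
      exact hvg.symm
  have hnat : D2.NatU v := D2.natU_of_triv h.triv
  have hself : D2.Near L₀ v ζ₀ ζ₀ := fun h0 => absurd (sub_self ζ₀) h0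
  have hnr : 0 < D2.nr v ζ₀ A₀ := by
    rw [D2.nr_pos_iff hA₀ne]
    refine ⟨ζ₀, hself, ?_⟩
    rw [← eval_map_algebraMap, hA₀]
    exact hζA
  obtain ⟨G, hG, -⟩ := D2.KG.exists hA₀ne hnr
  obtain ⟨η, hηn, hηG⟩ := (D2.nr_pos_iff hG.monic.ne_zero).1 hG.pos
  have hGd := hG.natDegree_pos
  -- the field `N`
  set N : IntermediateField k Ω := adj L₀ η with hN
  have hLN : L₀ ≤ N := le_adj L₀ η
  have hηN : η ∈ N := mem_adj L₀ η
  have hvN : vgp v N = vgp v L₀ := by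
    refine le_antisymm ?_ ?_
    · rintro _ ⟨g, hg, hg0, rfl⟩
      obtain ⟨P, hP, rfl⟩ := exists_poly hG.monic hGd hηG hg
      have hP0 : P ≠ 0 := by
        rintro rfl
        exact hg0 (map_zero _)
      obtain ⟨-, x, hx, hvx⟩ := D2.val_near_mem hs hnat hP0 (hG.least P hP0 hP) hηn
      refine ⟨x, x.2, fun h0 => hx (Subtype.ext h0), hvx.symm⟩
    · rintro _ ⟨g, hg, hg0, rfl⟩
      exact ⟨g, hLN hg, hg0, rfl⟩
  have hgood : Good v N :=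
    good_all p hp h N (adj_fg (Good.fg ⟨B, hL⟩) η) fun g =>
      alg_field_le hLN (alg_field B hL g)
  obtain ⟨C₀, hC₀⟩ := hgood
  -- generators of the value group
  obtain ⟨s, hsG⟩ := hfg
  have hφ : ∀ γ : ℝ, ∃ g : Ω, γ ∈ vgp v L₀ → g ∈ L₀ ∧ g ≠ 0 ∧ v g = γ := by
    intro γ
    by_cases hγ : γ ∈ vgp v L₀
    · obtain ⟨g, hg, hg0, hvg⟩ := hγ
      exact ⟨g, fun _ => ⟨hg, hg0, hvg⟩⟩
    · exact ⟨0, fun h => absurd h hγ⟩
  choose φ hφ using hφ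
  have hsv : ∀ γ ∈ s, γ ∈ vgp v L₀ := fun γ hγ => by
    rw [← hsG]; exact AddSubgroup.subset_closure hγ
  obtain ⟨S₁, hr1, hm1⟩ := ML p hp h B L₀ hL (s.image φ) (by
    intro g hg
    obtain ⟨γ, hγ, rfl⟩ := Finset.mem_image.1 hg
    exact ⟨(hφ γ (hsv γ hγ)).1, (hφ γ (hsv γ hγ)).2.1⟩)
  have hT1 : TReach B S₁ := TReach.of_reach hr1
  have hL1 : FracIs S₁.R L₀ := hT1.fracIs hL
  have hΓ1 : S₁.Γ = vgp v L₀ := Γ_eq_vgp S₁ hL1 rfl hsG (φ := φ) fun γ hγ =>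
    ⟨(hφ γ (hsv γ hγ)).2.2, hm1 _ (Finset.mem_image_of_mem φ hγ)⟩
  -- `η`
  have hη0 : η ≠ 0 := by
    rintro rfl
    have h1 := D2.near_not_mem hs (0 : L₀)
    rw [map_zero] at h1
    exact h1 hηn
  have hval0 : v ζ₀ = D2.al v ζ₀ (0 : L₀) := by
    unfold D2.al
    rw [map_zero, sub_zero]
  have hζne : ζ₀ ≠ 0 := (hs1 0 L₀.zero_mem).1
  have hζpos : 0 < v ζ₀ := hζ0 hζne
  have hvη : v η = v ζ₀ := by
    have h1 := (D2.Near.sub hs hηn 0).2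
    rw [map_zero, zero_sub, v.map_neg _ hη0] at h1
    rw [h1, hval0]
  -- the frame `C₁`
  have hs1Γ : ∀ γ ∈ s, γ ∈ S₁.Γ := fun γ hγ => by rw [hΓ1]; exact hsv γ hγ
  obtain ⟨C₁, hr2, hm2⟩ := ML p hp h C₀ N hC₀
    (s.image φ ∪ s.image S₁.χ ∪ {S₁.y, η}) (by
      intro g hg
      rw [Finset.mem_union, Finset.mem_union, Finset.mem_image, Finset.mem_image,
        Finset.mem_insert, Finset.mem_singleton] at hg
      rcases hg with (⟨γ, hγ, rfl⟩ | ⟨γ, hγ, rfl⟩) | rfl | rfl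
      · exact ⟨hLN (hφ γ (hsv γ hγ)).1, (hφ γ (hsv γ hγ)).2.1⟩
      · exact ⟨hLN (χ_mem_field S₁ hL1 (hs1Γ γ hγ)), S₁.χ_ne γ (hs1Γ γ hγ)⟩
      · exact ⟨hLN (hL1.1 _ S₁.y_mem), S₁.y_ne⟩
      · exact ⟨hηN, hη0⟩)
  have hC₁ : FracIs C₁.R N := hr2.ext.fracIs hC₀
  have hΓC1 : C₁.Γ = vgp v L₀ := Γ_eq_vgp C₁ hC₁ hvN.symm hsG (φ := φ) fun γ hγ =>
    ⟨(hφ γ (hsv γ hγ)).2.2, hm2 _ (Finset.mem_union_left _ (Finset.mem_union_left _
      (Finset.mem_image_of_mem φ hγ)))⟩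
  have hΓCS : C₁.Γ = S₁.Γ := hΓC1.trans hΓ1.symm
  have hrat : ∀ γ ∈ S₁.Γ, C₁.Un (S₁.χ γ / C₁.χ γ) :=
    ratio_un S₁ C₁ hΓCS (hsG.trans hΓ1.symm) fun γ hγ =>
      hm2 _ (Finset.mem_union_left _ (Finset.mem_union_right _ (Finset.mem_image_of_mem _ hγ)))
  have hyC1 : S₁.y ∈ C₁.R := (hm2 S₁.y (Finset.mem_union_right _
    (Finset.mem_insert_self _ _))).mem S₁.y_pos.le
  have hηC1 : η ∈ C₁.R := (hm2 η (Finset.mem_union_right _
    (Finset.mem_insert_of_mem (Finset.mem_singleton_self _)))).mem (by rw [hvη]; exact hζpos.le)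
  -- pairs
  obtain ⟨S₂, C₂, hS2, hR2, -, e2, hp2⟩ := h6 p hp hc hk h L₀ N hLN S₁ C₁ (hT1.brat hB) hL1 hC₁
    hΓ1 hvN hΓCS hrat hyC1
  have hex : ∃ e, ∃ S C : BF k v, TReach S₁ S ∧ IsPair L₀ N S C e ∧ η ∈ C.R :=
    ⟨e2, S₂, C₂, hS2, hp2, by rw [hR2]; exact hηC1⟩
  obtain ⟨S₃, C₃, hS3, hp3, hη3⟩ := Nat.find_spec hex
  set e := Nat.find hex with he
  have hmin : ∀ (S C : BF k v) (e' : ℕ), TReach S₁ S → IsPair L₀ N S C e' → η ∈ C.R → e ≤ e' :=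
    fun S C e' h1 h2 h3 => Nat.find_min' hex ⟨S, C, h1, h2, h3⟩
  -- `σ`
  obtain ⟨β, hβ⟩ := hbd
  have hbdd : BddAbove (Set.range fun ψ : L₀ => D2.al v ζ₀ ψ) := by
    refine ⟨β, ?_⟩
    rintro _ ⟨ψ, rfl⟩
    exact hβ ψ ψ.2
  set σ : ℝ := sSup (Set.range fun ψ : L₀ => D2.al v ζ₀ ψ) with hσ
  have hσ1 : ∀ ψ : L₀, D2.al v ζ₀ ψ < σ := by
    intro ψ
    obtain ⟨ψ', h'⟩ := hs.nomax ψ
    exact h'.trans_le (le_csSup hbdd ⟨ψ', rfl⟩)
  have hσ2 : ∀ x : ℝ, (∀ ψ : L₀, D2.al v ζ₀ ψ < x) → σ ≤ x := by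
    intro x hx
    refine csSup_le (Set.range_nonempty _) ?_
    rintro _ ⟨ψ, rfl⟩
    exact (hx ψ).le
  have hσ0 : 0 < σ := by
    have h1 := hσ1 0
    rw [← hval0] at h1
    linarith
  -- density
  obtain ⟨P, hPc, hPd, hPe⟩ := D2h2.density_pair h C₃ S₃
    (fun γ hγ h0 => by
      rw [hp3.χ_eq]
      exact S₃.χ_mem γ (by rw [← hp3.ΓC]; exact hγ) h0) hp3.rep hη3 σ
  set η' : Ω := P.eval C₃.y with hη'
  have hη'3 : η' ∈ C₃.R := eval_mem (fun n => hp3.le (hPc n)) C₃.y_mem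
  have hge1 : v.Ge σ (ζ₀ - η) := fun h0 => hσ2 _ (hηn h0)
  have hge : v.Ge σ (ζ₀ - η') := by
    have h1 : ζ₀ - η' = (ζ₀ - η) + (η - η') := by ring
    rw [h1]
    exact hge1.add hPe
  have hdist : ∀ ψ ∈ L₀, η' - ψ ≠ 0 ∧ v (η' - ψ) = v (ζ₀ - ψ) := by
    intro ψ hψ
    have h1 : ζ₀ - ψ ≠ 0 := sub_ne_zero.2 (hs1 ψ hψ).1
    have h2 : v (ζ₀ - ψ) < σ := hσ1 ⟨ψ, hψ⟩
    by_cases h3 : ζ₀ - η' = 0
    · have h4 : ζ₀ = η' := sub_eq_zero.1 h3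
      rw [← h4]
      exact ⟨h1, rfl⟩
    · have h4 := v.add_of_lt h1 (neg_ne_zero.2 h3) (by
        rw [v.map_neg _ h3]
        exact h2.trans_le (hge h3))
      have h5 : ζ₀ - ψ + -(ζ₀ - η') = η' - ψ := by ring
      rw [h5] at h4
      exact h4
  have hη'pos : VPos v η' := by
    intro _
    have h1 := (hdist 0 L₀.zero_mem).2
    rw [sub_zero, sub_zero] at h1
    rw [h1]
    exact hζpos
  -- the Taylor coefficients of `A` at `η'`
  have hord : D2.Ord0 v A m :=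
    ⟨fun j => B.nonneg _ (hA j), hAm.2.1, hAm.2.2, hAl⟩
  obtain ⟨g1, g2, g3, g4⟩ := hord.grade (IsAlgClosed.splits A) hσ0 hη'pos (by
    intro ζ hζ hp
    have hroot : A.eval ζ = 0 := (mem_roots hAne).1 hζ
    have h1 : v.Ge σ (ζ₀ - ζ) := fun h0 => hσ2 _ fun ψ => hs2 ζ hroot hp h0 ψ ψ.2
    have h2 : η' - ζ = (ζ₀ - ζ) - (ζ₀ - η') := by ring
    rw [h2]
    exact h1.sub hge)
  -- (2.4)
  have hAC3 : ∀ j, A.coeff j ∈ S₃.R := fun j =>
    hS3.ext.le (hT1.ext.le (hA j))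
  have hAη : ∀ i, (hasseDeriv i A).eval η' ∈ C₃.R := fun i =>
    eval_mem (fun n => hp3.le (hasse_coeff_mem hAC3 i n)) hη'3
  obtain ⟨S', C', e', hSS, hCC, hp4, hmono, ψ, hψ, a, ha, ha0, D, hD0, hDe, hrep1, hrep2⟩ :=
    row8a h6 p hp h hLN hp3 hPc hPd
      (fun ψ hψ h0 => (hdist ψ (hp3.fracS.1 ψ hψ)).1 (sub_eq_zero.2 h0))
      ((Finset.range (m + 1)).image fun i => (hasseDeriv i A).eval η') (by
        intro g hg
        obtain ⟨i, -, rfl⟩ := Finset.mem_image.1 hg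
        exact hp3.fracC.1 _ (hAη i))
  have hψL : ψ ∈ L₀ := hp3.fracS.1 ψ hψ
  have hee : e ≤ e' := hmin S' C' e' (hS3.trans hSS) hp4 (hCC hη3)
  have hlt : a < v (ζ₀ - ψ) := by
    have h1 := hrep2.val_pos h hD0
    rw [(hdist ψ hψL).2] at h1
    exact h1
  obtain ⟨h7, h8⟩ := row8b h L₀ N S' C' e' hp4 A m σ a D η' ψ
    (fun j => hSS.ext.le (hAC3 j)) (hCC hη'3) (hSS.ext.le hψ) hm hD0 (hDe.trans_le hee) ha ha0
    (hlt.trans (hσ1 ⟨ψ, hψL⟩)) hrep1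
    (fun i hi => by
      rcases hmono _ (Finset.mem_image_of_mem _ (Finset.mem_range.2 (by omega : i < m + 1)))
        with h1 | h1
      · exact Or.inl h1
      · exact Or.inr ⟨h1, g2 i h1.1⟩)
    ⟨hCC (hAη m), g3, g4⟩
  exact ⟨S', (hT1.trans hS3).trans hSS, ψ, hSS.ext.le hψ, a, ha, ha0,
    sub_ne_zero.2 (hs1 ψ hψL).1, hlt, h7, h8⟩

end Pool.Agent.LU3S
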