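import Pool.Agent.Lib.LU1_h15.Cmp

/-! # Monomialisation by strict T-steps (all steps have `q = 1`, the monomials do not change) -/

set_option autoImplicit false

namespace Pool.Agent.LU3S

open Pool.Agent.H15JM (RVal)
open Pool.Agent.LU1
open Polynomial

universe u

variable {k Ω : Type u} [Field k] [Field Ω] [Algebra k Ω] {v : RVal Ω} {r : ℕ}

/-- A strict T-step: `q = 1` and `s(γ, l) = l`. -/
def Str (B B' : BF k v) : Prop :=
  ∃ (c : k) (s : ℝ → ℤ → ℤ), IsTStep B B' 1 c s ∧ ∀ γ ∈ B.Γ, ∀ l : ℤ, s γ l = l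

/-- Finitely many strict T-steps. -/
def SReach : BF k v → BF k v → Prop := Relation.ReflTransGen Str

theorem Str.tstep {B B' : BF k v} (h : Str B B') : TStep B B' := by
  obtain ⟨c, s, h1, -⟩ := h
  exact ⟨1, c, s, h1⟩

theorem SReach.reach {B B' : BF k v} (h : SReach B B') : Reach B B' := by
  induction h with
  | refl => exact Relation.ReflTransGen.refl
  | tail _ h2 ih => exact ih.tail h2.tstep

theorem SReach.ext {B B' : BF k v} (h : SReach B B') : Ext B B' := h.reach.ext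

theorem SReach.refl (B : BF k v) : SReach B B := Relation.ReflTransGen.refl

theorem SReach.trans {B B' B'' : BF k v} (h : SReach B B') (h' : SReach B' B'') :
    SReach B B'' := Relation.ReflTransGen.trans h h'

/-- The data of a strict T-step. -/
theorem Str.data {B B' : BF k v} (h : Str B B') :
    B'.Γ = B.Γ ∧ (∀ γ ∈ B.Γ, B'.χ γ = B.χ γ) ∧ v B.y ∈ B.Γ ∧
      ∃ c : k, B.y = B.χ (v B.y) * (algebraMap k Ω c + B'.y) := by
  obtain ⟨c, s, h1, hs⟩ := h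
  have hβ : v B.y ∈ B.Γ := by
    have h2 := h1.q_mem
    rwa [Nat.cast_one, one_mul] at h2
  refine ⟨?_, fun γ hγ => ?_, hβ, c, ?_⟩
  · rw [h1.Γ_eq, sup_eq_left, AddSubgroup.zmultiples_le]
    exact hβ
  · have h2 := h1.χ_eq γ hγ 0
    rw [hs γ hγ 0, Int.cast_zero, zero_mul, add_zero, zpow_zero, mul_one, neg_zero, zpow_zero,
      mul_one] at h2
    exact h2
  · rw [h1.y_eq, add_sub_cancel, BF.w, Nat.cast_one, one_mul, pow_one,
      mul_div_cancel₀ _ (B.χ_ne _ hβ)]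

/-- The data of a chain of strict T-steps. -/
theorem SReach.data {B B' : BF k v} (h : SReach B B') :
    B'.Γ = B.Γ ∧ (∀ γ ∈ B.Γ, B'.χ γ = B.χ γ) ∧
      ∃ t ∈ Algebra.adjoin k (B.χ '' {γ | γ ∈ B.Γ ∧ 0 ≤ γ}), ∃ b ∈ B.Γ, 0 ≤ b ∧
        B.y = t + B.χ b * B'.y := by
  induction h with
  | refl =>
    refine ⟨rfl, fun _ _ => rfl, 0, Subalgebra.zero_mem _, 0, B.Γ.zero_mem, le_rfl, ?_⟩
    rw [B.χ_zero, one_mul, zero_add]
  | @tail B1 B2 _ h2 ih =>
    obtain ⟨e1, e2, t, ht, b, hb, hb0, hy⟩ := ih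
    obtain ⟨f1, f2, f3, c, f4⟩ := h2.data
    have hβ : v B1.y ∈ B.Γ := by rw [← e1]; exact f3
    have hβ0 : 0 < v B1.y := B1.y_pos
    refine ⟨f1.trans e1, fun γ hγ => ?_, t + algebraMap k Ω c * B.χ (b + v B1.y), ?_,
      b + v B1.y, B.Γ.add_mem hb hβ, by linarith, ?_⟩
    · rw [f2 γ (by rw [e1]; exact hγ), e2 γ hγ]
    · refine Subalgebra.add_mem _ ht (Subalgebra.mul_mem _ (Subalgebra.algebraMap_mem _ c) ?_)
      exact Algebra.subset_adjoin ⟨_, ⟨B.Γ.add_mem hb hβ, by linarith⟩, rfl⟩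
    · rw [e2 _ hβ] at f4
      rw [hy, B.χ_add b hb _ hβ]
      conv_lhs => rw [f4]
      ring

/-- If all values of `E` are in `Γ` there is a strict T-step. -/
theorem exists_str (h : Ctx k v r) (B : BF k v) (E : IntermediateField k Ω)
    (hE : FracIs B.R E) (hval : ∀ g ∈ E, g ≠ 0 → v g ∈ B.Γ) :
    ∃ B' : BF k v, Str B B' := by
  obtain ⟨B', q, c, s, hst, -, hq1⟩ := B.exists_tstep h ∅ (by simp) 1 (Or.inl rfl)
  have hβ : v B.y ∈ B.Γ := hval _ (hE.1 _ B.y_mem) B.y_ne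
  have hq : q = 1 := by
    have h1 := hst.q_min 1 one_pos (by rw [Nat.cast_one, one_mul]; exact hβ)
    have h2 := hst.q_pos
    omega
  subst hq
  exact ⟨B', c, s, hst, hq1 rfl⟩

/-- A state of the algorithm. -/
structure SState (B0 : BF k v) (f : Ω) (D : ℕ) where
  B : BF k v
  P : (Lau k)[X]
  κ : ℝ
  reach : SReach B0 B
  supp : SuppIn B.Γ P
  nn : ∀ γ l, co P γ l ≠ 0 → 0 ≤ γ
  ev : B.ev P = f
  ld : IsLD All P 0 κ D

/-- the state as a state of the old algorithm -/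
def SState.toM {B0 : BF k v} {f : Ω} {D : ℕ} (T : SState B0 f D) : MState B0 f D :=
  ⟨T.B, T.P, T.κ, T.reach.reach, T.supp, T.nn, T.ev, T.ld⟩

/-- One step of the algorithm. -/
theorem SState.step (h : Ctx k v r) {B0 : BF k v} {f : Ω} {D : ℕ} (T : SState B0 f D)
    (E : IntermediateField k Ω) (hE : FracIs B0.R E) (hval : ∀ g ∈ E, g ≠ 0 → v g ∈ B0.Γ) :
    ∃ (D' : ℕ) (T' : SState B0 f D') (c : k) (s : ℝ → ℤ → ℤ),
      IsTStep T.B T'.B 1 c s ∧ T'.P = tpoly (v T.B.y) c s T.P ∧ D' ≤ D ∧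
      (∀ γ ∈ T.B.Γ, ∀ l : ℤ, s γ l = l) := by
  obtain ⟨D', T', q, c, s, hst, hP, hle, -, hq1⟩ := T.toM.step h
  have hβ : v T.B.y ∈ T.B.Γ := by
    rw [T.reach.data.1]
    exact hval _ ((T.reach.ext.fracIs hE).1 _ T.B.y_mem) T.B.y_ne
  have hq : q = 1 := by
    have h1 := hst.q_min 1 one_pos (by rw [Nat.cast_one, one_mul]; exact hβ)
    have h2 := hst.q_pos
    omega
  subst hq
  have hs := hq1 rfl
  exact ⟨D', ⟨T'.B, T'.P, T'.κ, T.reach.tail ⟨c, s, hst, hs⟩, T'.supp, T'.nn, T'.ev, T'.ld⟩,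
    c, s, hst, hP, hle, hs⟩

/-- Polynomials become monomial after finitely many strict T-steps. -/
theorem SML_poly (p : ℕ) (hp : p.Prime) [CharP k p] (h : Ctx k v r) (B : BF k v)
    (E : IntermediateField k Ω) (hE : FracIs B.R E) (hval : ∀ g ∈ E, g ≠ 0 → v g ∈ B.Γ)
    (P : (Lau k)[X]) (hP : SuppIn B.Γ P) (h0 : ∀ γ l, co P γ l ≠ 0 → 0 ≤ γ)
    (hne : B.ev P ≠ 0) : ∃ B' : BF k v, SReach B B' ∧ B'.Mono (B.ev P) := by
  classical
  -- initial state
  have hvis : ∃ γ l, co P γ l ≠ 0 ∧ All γ l := by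
    by_contra hcon
    push Not at hcon
    apply hne
    have hP0 : P = 0 := by
      ext l : 1
      have h1 : (P.coeff l) = 0 := by
        apply AddMonoidAlgebra.ext
        apply Finsupp.ext
        intro γ
        by_contra h2
        exact hcon γ l h2 trivial
      rw [h1, coeff_zero]
    rw [hP0]
    show (0 : (Lau k)[X]).sum (fun l a => evL B.χ a * B.y ^ l) = 0
    exact sum_zero_index _
  obtain ⟨κ0, D0, hLD0⟩ := exists_IsLD All P 0 hvis
  let T0 : SState B (B.ev P) D0 := ⟨B, P, κ0, Relation.ReflTransGen.refl, hP, h0, rfl, hLD0⟩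
  have hex : ∃ D, Nonempty (SState B (B.ev P) D) := ⟨D0, ⟨T0⟩⟩
  obtain ⟨T⟩ := Nat.find_spec hex
  set D := Nat.find hex with hDdef
  rcases Nat.eq_zero_or_pos D with hD | hD
  · refine ⟨T.B, T.reach, ?_⟩
    have h1 := T.B.rep_ev h T.supp T.ld
    rw [T.ev] at h1
    have h2 : ∀ D', D' = 0 → T.B.Rep (B.ev P) T.κ D' → T.B.Mono (B.ev P) := by
      rintro _ rfl h3
      exact h3.val_zero.2.2
    exact h2 D hD h1
  · exfalso
    -- every state of order `D` has a successor of order `D`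
    have hsucc : ∀ T : SState B (B.ev P) D, ∃ T' : SState B (B.ev P) D,
        ∃ (c : k) (s : ℝ → ℤ → ℤ), IsTStep T.B T'.B 1 c s ∧
          T'.P = tpoly (v T.B.y) c s T.P ∧ (∀ γ ∈ T.B.Γ, ∀ l : ℤ, s γ l = l) := by
      intro T
      obtain ⟨D', T', c, s, hst, hPP, hle, hq1⟩ := T.step h E hE hval
      have hmin : D ≤ D' := Nat.find_min' hex ⟨T'⟩
      have hDD : D' = D := le_antisymm hle hmin
      clear_value D
      subst hDD
      exact ⟨T', c, s, hst, hPP, hq1⟩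
    choose nxt hnxt using hsucc
    let Tn : ℕ → SState B (B.ev P) D := fun n => Nat.rec T (fun _ x => nxt x) n
    exact no_chain p hp h hD (fun n => (Tn n).toM) (fun n => hnxt (Tn n))

/-- An element of the ring of a frame becomes monomial. -/
theorem SML_mem (p : ℕ) (hp : p.Prime) [CharP k p] (h : Ctx k v r) (B : BF k v)
    (E : IntermediateField k Ω) (hE : FracIs B.R E) (hval : ∀ g ∈ E, g ≠ 0 → v g ∈ B.Γ) {f : Ω}
    (hf : f ∈ B.R) (hf0 : f ≠ 0) : ∃ B' : BF k v, SReach B B' ∧ B'.Mono f := by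
  classical
  -- a noetherian frame containing `f`
  obtain ⟨S0, G, hS0, -, -, hG⟩ := B.exists_NF h {f} (by simpa using hf)
  obtain ⟨u, hu⟩ := B.exists_basis h S0 hS0
  obtain ⟨N, hNx, hNy, -, hNR, hNf⟩ := hG u hu
  have hfN : f ∈ N.R := hNf f (Finset.mem_singleton_self f)
  -- `ε`
  have hne : (Finset.univ : Finset (Fin r)).Nonempty := ⟨⟨0, h.rpos⟩, Finset.mem_univ _⟩
  obtain ⟨i0, -, hi0⟩ := Finset.exists_min_image Finset.univ u hne
  set ε : ℝ := min (u i0) (v B.y) with hε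
  have hεpos : 0 < ε := lt_min (hu.pos i0) B.y_pos
  have hεu : ∀ i, ε ≤ u i := fun i => (min_le_left _ _).trans (hi0 i (Finset.mem_univ i))
  have hεy : ε ≤ v B.y := min_le_right _ _
  obtain ⟨M, hM⟩ := exists_nat_gt (v f / ε)
  have hMε : v f < M * ε := by rwa [div_lt_iff₀ hεpos] at hM
  obtain ⟨P, -, hPs, hPn, hPe⟩ := NF.expand h B N u (fun i => ⟨hu.mem i, hu.pos i⟩) hNx hNy f
    hfN M
  -- after at least one T-step the error is small
  have herr : ∀ B1 B' : BF k v, TStep B B1 → Reach B1 B' →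
      ε ∈ B'.Γ ∧ ∃ a ∈ B'.R, f - B.ev P = B'.χ ε ^ M * a := by
    intro B1 B' h1 h2
    obtain ⟨q, c, s, h1⟩ := h1
    have hext := h2.ext
    have hext1 := h1.ext
    have hε1 : ε ∈ B1.Γ := by
      rcases min_choice (u i0) (v B.y) with h3 | h3
      · rw [hε, h3]
        exact hext1.Γ_le _ (hu.mem i0)
      · rw [hε, h3]
        exact h1.β_mem
    have hε' : ε ∈ B'.Γ := hext.Γ_le _ hε1
    refine ⟨hε', ?_⟩
    have hdvd : ∀ g : Ω, B'.Mono g → ε ≤ v g → ∃ a ∈ B'.R, g = B'.χ ε * a := by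
      intro g hg hle
      have h3 : B'.Mono (g / B'.χ ε) := hg.div (BF.Mono.χ hε')
      refine ⟨g / B'.χ ε, h3.mem ?_, by rw [mul_div_cancel₀ _ (B'.χ_ne _ hε')]⟩
      rw [v.map_div hg.1 (B'.χ_ne _ hε'), B'.χ_val _ hε']
      linarith
    refine N.inPow_dvd B'.R (hNR.trans (hext1.le.trans hext.le)) (B'.χ ε) (fun i => ?_) ?_ M _ hPe
    · apply hdvd
      · rw [hNx]
        exact hext.mono (hext1.mono (BF.Mono.χ (hu.mem i)))
      · rw [hNx, B.χ_val _ (hu.mem i)]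
        exact hεu i
    · apply hdvd
      · rw [hNy]
        exact hext.mono h1.mono_y
      · rw [hNy]
        exact hεy
  have hvχ : ∀ B' : BF k v, ε ∈ B'.Γ → ∀ a ∈ B'.R, v.Ge (M * ε) (B'.χ ε ^ M * a) := by
    intro B' hε' a ha h3
    have h4 := left_ne_zero_of_mul h3
    have h5 := right_ne_zero_of_mul h3
    rw [v.map_mul h4 h5, v.map_pow (B'.χ_ne _ hε'), B'.χ_val _ hε']
    have h6 := B'.nonneg a ha h5
    linarith
  -- `B.ev P` is not zero and has the same value as `f`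
  obtain ⟨B1, q1, c1, s1, hB1, -, -⟩ := B.exists_tstep h ∅ (by simp) 1 (Or.inl rfl)
  obtain ⟨hε1, a1, ha1, he1⟩ := herr B1 B1 ⟨q1, c1, s1, hB1⟩ Relation.ReflTransGen.refl
  have hge : v.Ge (M * ε) (f - B.ev P) := by
    rw [he1]
    exact hvχ B1 hε1 a1 ha1
  have hPne : B.ev P ≠ 0 := by
    intro h3
    rw [h3, sub_zero] at hge
    exact absurd (hge hf0) (not_le.2 hMε)
  have hvP : v (B.ev P) = v f := by
    by_cases h3 : f - B.ev P = 0
    · rw [sub_eq_zero.mp h3]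
    · have h4 := v.add_of_lt hf0 (neg_ne_zero.2 h3) (by
        rw [v.map_neg _ h3]
        exact lt_of_lt_of_le hMε (hge h3))
      have h5 : f + -(f - B.ev P) = B.ev P := by ring
      rw [h5] at h4
      exact h4.2
  obtain ⟨B2, hr2, hm2⟩ := SML_poly p hp h B E hE hval P hPs hPn hPne
  obtain ⟨B3, hst3⟩ := exists_str h B2 E (hr2.ext.fracIs hE) (by rw [hr2.data.1]; exact hval)
  have hr3 : SReach B B3 := hr2.tail hst3
  -- the first step of the chain from `B` to `B3`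
  obtain ⟨B4, h4, h4'⟩ : ∃ B4, TStep B B4 ∧ Reach B4 B3 := by
    have h5 : Relation.TransGen TStep B B3 := Relation.TransGen.tail' hr2.reach hst3.tstep
    exact Relation.TransGen.head'_iff.mp h5
  obtain ⟨hε3, a3, ha3, he3⟩ := herr B4 B3 h4 h4'
  refine ⟨B3, hr3, ?_⟩
  have hm3 : B3.Mono (B.ev P) := by
    obtain ⟨q, c, s, hB3⟩ := hst3.tstep
    exact hB3.ext.mono hm2
  obtain ⟨-, hvf, hun⟩ := hm3
  rw [hvP] at hvf hun
  have hχf := B3.χ_ne _ hvf
  have hMεmem : (M : ℝ) * ε ∈ B3.Γ := by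
    rw [← nsmul_eq_mul]
    exact B3.Γ.nsmul_mem hε3 M
  refine ⟨hf0, hvf, ?_⟩
  have hrest : f / B3.χ (v f) = B.ev P / B3.χ (v f) + B3.χ (M * ε - v f) * a3 := by
    have h5 : f = B.ev P + B3.χ ε ^ M * a3 := by
      rw [← he3]
      ring
    have h6 : B3.χ (M * ε - v f) = B3.χ ε ^ M / B3.χ (v f) := by
      rw [B3.χ_sub hMεmem hvf, B3.χ_nsmul hε3]
    rw [h6]
    have h7 : f / B3.χ (v f) = (B.ev P + B3.χ ε ^ M * a3) / B3.χ (v f) :=
      congrArg (fun g => g / B3.χ (v f)) h5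
    rw [h7, add_div]
    congr 1
    ring
  rw [hrest]
  have hmem := B3.Γ.sub_mem hMεmem hvf
  have hpos : 0 < M * ε - v f := by linarith
  refine hun.add_vpos (B3.R.mul_mem (B3.χ_mem _ hmem hpos.le) ha3) ?_
  exact (B3.vpos_χ hmem hpos).mul (B3.nonneg a3 ha3)

/-- Finitely many elements of `E` become monomial after finitely many strict T-steps. -/
theorem SML (p : ℕ) (hp : p.Prime) [CharP k p] (h : Ctx k v r) (B : BF k v)
    (E : IntermediateField k Ω) (hE : FracIs B.R E) (hval : ∀ g ∈ E, g ≠ 0 → v g ∈ B.Γ)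
    (T : Finset Ω) (hT : ∀ f ∈ T, f ∈ E ∧ f ≠ 0) :
    ∃ B' : BF k v, SReach B B' ∧ ∀ f ∈ T, B'.Mono f := by
  classical
  induction T using Finset.induction_on with
  | empty => exact ⟨B, Relation.ReflTransGen.refl, by simp⟩
  | insert f T _ ih =>
    obtain ⟨B1, hr1, hm1⟩ := ih fun g hg => hT g (Finset.mem_insert_of_mem hg)
    obtain ⟨hfE, hf0⟩ := hT f (Finset.mem_insert_self f T)
    obtain ⟨a, ha, b, hb, hb0, rfl⟩ := (hr1.ext.fracIs hE).2 f hfE
    have ha0 : a ≠ 0 := by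
      rintro rfl
      exact hf0 (zero_div b)
    have hv1 : ∀ g ∈ E, g ≠ 0 → v g ∈ B1.Γ := by rw [hr1.data.1]; exact hval
    obtain ⟨B2, hr2, hm2⟩ := SML_mem p hp h B1 E (hr1.ext.fracIs hE) hv1 ha ha0
    have hv2 : ∀ g ∈ E, g ≠ 0 → v g ∈ B2.Γ := by rw [hr2.data.1]; exact hv1
    obtain ⟨B3, hr3, hm3⟩ := SML_mem p hp h B2 E (hr2.ext.fracIs (hr1.ext.fracIs hE)) hv2
      (hr2.ext.le hb) hb0
    refine ⟨B3, hr1.trans (hr2.trans hr3), fun g hg => ?_⟩
    rcases Finset.mem_insert.mp hg with rfl | hg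
    · exact (hr3.ext.mono hm2).div hm3
    · exact hr3.ext.mono (hr2.ext.mono (hm1 g hg))

/-- The same with at least one step: `C.y = t + χ(b) C'.y` with `b > 0`. -/
theorem SML_pos (p : ℕ) (hp : p.Prime) [CharP k p] (h : Ctx k v r) (B : BF k v)
    (E : IntermediateField k Ω) (hE : FracIs B.R E) (hval : ∀ g ∈ E, g ≠ 0 → v g ∈ B.Γ)
    (T : Finset Ω) (hT : ∀ f ∈ T, f ∈ E ∧ f ≠ 0) :
    ∃ B' : BF k v, SReach B B' ∧ (∀ f ∈ T, B'.Mono f) ∧
      ∃ t ∈ Algebra.adjoin k (B.χ '' {γ | γ ∈ B.Γ ∧ 0 ≤ γ}), ∃ b ∈ B.Γ, 0 < b ∧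
        B.y = t + B.χ b * B'.y := by
  obtain ⟨B1, hB1⟩ := exists_str h B E hE hval
  have hr1 : SReach B B1 := Relation.ReflTransGen.single hB1
  have hv1 : ∀ g ∈ E, g ≠ 0 → v g ∈ B1.Γ := by rw [hr1.data.1]; exact hval
  obtain ⟨B2, hr2, hm2⟩ := SML p hp h B1 E (hr1.ext.fracIs hE) hv1 T hT
  refine ⟨B2, hr1.trans hr2, hm2, ?_⟩
  obtain ⟨e1, e2, e3, c, e4⟩ := hB1.data
  obtain ⟨f1, f2, t, ht, b, hb, hb0, f3⟩ := hr2.data
  have hb' : b ∈ B.Γ := by rw [← e1]; exact hb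
  refine ⟨algebraMap k Ω c * B.χ (v B.y) + B.χ (v B.y) * t, ?_, v B.y + b,
    B.Γ.add_mem e3 hb', by linarith [B.y_pos], ?_⟩
  · have hmem : B.χ (v B.y) ∈ Algebra.adjoin k (B.χ '' {γ | γ ∈ B.Γ ∧ 0 ≤ γ}) :=
      Algebra.subset_adjoin ⟨_, ⟨e3, B.y_pos.le⟩, rfl⟩
    have ht' : t ∈ Algebra.adjoin k (B.χ '' {γ | γ ∈ B.Γ ∧ 0 ≤ γ}) := by
      refine Algebra.adjoin_mono ?_ ht
      rintro _ ⟨γ, ⟨hγ, h0⟩, rfl⟩
      have hγ' : γ ∈ B.Γ := by rw [← e1]; exact hγ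
      exact ⟨γ, ⟨hγ', h0⟩, (e2 γ hγ').symm⟩
    exact Subalgebra.add_mem _ (Subalgebra.mul_mem _ (Subalgebra.algebraMap_mem _ c) hmem)
      (Subalgebra.mul_mem _ hmem ht')
  · rw [f3, e2 b hb'] at e4
    rw [B.χ_add _ e3 _ hb']
    refine e4.trans ?_
    ring

end Pool.Agent.LU3S
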