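import Pool.Agent.Lib.LU3_h87.ML1
import Pool.Agent.Lib.LU3.TReach
import Pool.Agent.Lib.LU3.Rows

/-! # (2.4): the choice of `C_t`, `ψ = P(h_t)` and `a` -/

set_option autoImplicit false

namespace Pool.Agent.LU3S

open Pool.Agent.H15JM (RVal)
open Pool.Agent.LU1 Pool.Agent.LU3
open Polynomial

universe u

variable {k Ω : Type u} [Field k] [Field Ω] [Algebra k Ω] {v : RVal Ω} {r : ℕ}

/-- A sum of terms of different orders: the lexicographically least term wins. -/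
theorem rep_sum {C : BF k v} {f : ℕ → Ω} {κ : ℕ → ℝ} {s : Finset ℕ} (hs : s.Nonempty)
    (hf : ∀ n ∈ s, C.Rep (f n) (κ n) n) :
    ∃ D ∈ s, C.Rep (∑ n ∈ s, f n) (κ D) D := by
  classical
  induction hs using Finset.Nonempty.cons_induction with
  | singleton a =>
    refine ⟨a, Finset.mem_singleton_self a, ?_⟩
    rw [Finset.sum_singleton]
    exact hf a (Finset.mem_singleton_self a)
  | cons a s ha hs ih =>
    obtain ⟨D, hD, h1⟩ := ih fun n hn => hf n (Finset.mem_cons_of_mem hn)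
    have h2 := hf a (Finset.mem_cons_self a s)
    have hne : a ≠ D := fun h => ha (h ▸ hD)
    rw [Finset.sum_cons]
    rcases lt_trichotomy (κ a) (κ D) with h3 | h3 | h3
    · exact ⟨a, Finset.mem_cons_self a s, h2.add h1 (Or.inl h3)⟩
    · rcases lt_or_gt_of_ne hne with h4 | h4
      · exact ⟨a, Finset.mem_cons_self a s, h2.add h1 (Or.inr ⟨h3, h4⟩)⟩
      · refine ⟨D, Finset.mem_cons_of_mem hD, ?_⟩
        rw [add_comm]
        exact h1.add h2 (Or.inr ⟨h3.symm, h4⟩)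
    · refine ⟨D, Finset.mem_cons_of_mem hD, ?_⟩
      rw [add_comm]
      exact h1.add h2 (Or.inl h3)

/-- Taylor expansion. -/
theorem eval_sub_eq (P : Polynomial Ω) (x t : Ω) :
    P.eval x - P.eval (x - t) =
      ∑ n ∈ Finset.Ico 1 (P.natDegree + 1), -((hasseDeriv n P).eval x * (-t) ^ n) := by
  have h1 : P.eval (x - t) = (taylor x P).eval (-t) := by
    rw [taylor_eval]
    congr 1
    ring
  have h2 : (taylor x P).eval (-t) =
      ∑ n ∈ Finset.range (P.natDegree + 1), (hasseDeriv n P).eval x * (-t) ^ n := by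
    rw [eval_eq_sum_range' (n := P.natDegree + 1) (by rw [natDegree_taylor]; exact Nat.lt_succ_self _)]
    refine Finset.sum_congr rfl fun n _ => ?_
    rw [taylor_coeff]
  rw [h1, h2, Finset.range_eq_Ico, Finset.sum_eq_sum_Ico_succ_bot (Nat.succ_pos _),
    Finset.sum_neg_distrib]
  simp only [hasseDeriv_zero', pow_zero, mul_one]
  ring

theorem eval_mem {R : Subalgebra k Ω} {P : Polynomial Ω} (hP : ∀ n, P.coeff n ∈ R) {x : Ω}
    (hx : x ∈ R) : P.eval x ∈ R := by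
  rw [eval_eq_sum_range]
  exact R.sum_mem fun n _ => R.mul_mem (hP n) (R.pow_mem hx n)

theorem hasse_coeff_mem {R : Subalgebra k Ω} {P : Polynomial Ω} (hP : ∀ n, P.coeff n ∈ R)
    (i n : ℕ) : (hasseDeriv i P).coeff n ∈ R := by
  rw [hasseDeriv_coeff]
  refine R.mul_mem ?_ (hP _)
  exact natCast_mem R _

/-- The frame with the same ring and the same `y` is an extension. -/
theorem ext_of_eq {C C' : BF k v} (hR : C'.R = C.R) (hΓ : C'.Γ = C.Γ)
    (hχ : ∀ γ ∈ C.Γ, C'.Un (C.χ γ / C'.χ γ)) : Ext C C' :=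
  ⟨hR.ge, fun γ hγ => hΓ.ge hγ, hχ, fun f hf =>
    ⟨f, by rw [← hR]; exact hf, 1, C.R.one_mem, one_ne_zero, by rw [div_one]⟩⟩

/-- (2.4) -/
theorem row8a (h6 : Row6 k Ω v r) (p : ℕ) (hp : p.Prime) [hc : CharP k p] [hk : IsAlgClosed k]
    (h : Ctx k v r) {L₀ N : IntermediateField k Ω} (hLN : L₀ ≤ N) {S C : BF k v} {e : ℕ}
    (hPa : IsPair L₀ N S C e) {P : Polynomial Ω} (hPS : ∀ n, P.coeff n ∈ S.R)
    (hPd : P.degree < e) (hne : ∀ ψ ∈ S.R, P.eval C.y ≠ ψ) (T : Finset Ω)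
    (hT : ∀ g ∈ T, g ∈ N) :
    ∃ (S' C' : BF k v) (e' : ℕ), TReach S S' ∧ C.R ≤ C'.R ∧ IsPair L₀ N S' C' e' ∧
      (∀ g ∈ T, g = 0 ∨ C'.Mono g) ∧ ∃ ψ ∈ S.R, ∃ a ∈ S'.Γ, 0 < a ∧ ∃ D, 0 < D ∧ D < e ∧
        C'.Rep ((P.eval C.y - ψ) / S'.χ a) 0 D ∧ C'.Rep (P.eval C.y - ψ) a D := by
  classical
  have hval : ∀ g ∈ N, g ≠ 0 → v g ∈ C.Γ := by
    intro g hg hg0
    rw [hPa.ΓC, hPa.ΓS, ← hPa.ΓN]
    exact ⟨g, hg, hg0, rfl⟩
  have hyC : C.y ∈ N := hPa.fracC.1 _ C.y_mem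
  have hSN : ∀ f ∈ S.R, f ∈ N := fun f hf => hLN (hPa.fracS.1 f hf)
  have hcoN : ∀ n, P.coeff n ∈ N := fun n => hSN _ (hPS n)
  have hhN : ∀ i, (hasseDeriv i P).eval C.y ∈ N := by
    intro i
    have h1 : (hasseDeriv i P).eval C.y ∈ C.R :=
      eval_mem (fun n => hPa.le (hasse_coeff_mem hPS i n)) C.y_mem
    exact hPa.fracC.1 _ h1
  -- the elements that have to become monomial
  let U : Finset Ω := (T ∪ (Finset.range (P.natDegree + 1)).image
    fun i => (hasseDeriv i P).eval C.y).filter fun g => g ≠ 0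
  obtain ⟨Ct, hr, hm, t, ht, b, hb, hb0, hy⟩ := SML_pos p hp h C N hPa.fracC hval U (by
    intro g hg
    rw [Finset.mem_filter, Finset.mem_union, Finset.mem_image] at hg
    refine ⟨?_, hg.2⟩
    rcases hg.1 with h1 | ⟨i, -, rfl⟩
    · exact hT g h1
    · exact hhN i)
  obtain ⟨e1, e2, -⟩ := hr.data
  have hχC : ∀ γ ∈ S.Γ, Ct.χ γ = S.χ γ := by
    intro γ hγ
    rw [e2 γ (by rw [hPa.ΓC]; exact hγ), hPa.χ_eq]
  have hCtΓ : Ct.Γ = S.Γ := e1.trans hPa.ΓC
  -- the pair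
  obtain ⟨S', C', hSS, hR', hy', e', hPa'⟩ := h6 p hp hc hk h L₀ N hLN S Ct hPa.rat hPa.fracS
    (hr.ext.fracIs hPa.fracC) hPa.ΓS hPa.ΓN hCtΓ
    (fun γ hγ => by
      rw [hχC γ hγ, div_self (S.χ_ne γ hγ)]
      exact BF.Un.one)
    (hr.ext.le (hPa.le S.y_mem))
  have hΓ' : C'.Γ = S.Γ := by rw [hPa'.ΓC, hPa'.ΓS, hPa.ΓS]
  have hext : Ext Ct C' := by
    refine ext_of_eq hR' (hΓ'.trans hCtΓ.symm) fun γ hγ => ?_
    rw [hCtΓ] at hγ
    rw [hχC γ hγ, hPa'.χ_eq]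
    have h1 := hSS.ext.χ_un γ hγ
    exact ⟨hPa'.le h1.1, h1.2.1, h1.2.2⟩
  have hCC' : Ext C C' := hr.ext.trans hext
  have hb' : b ∈ C'.Γ := by rw [hΓ', ← hPa.ΓC]; exact hb
  refine ⟨S', C', e', hSS, hCC'.le, hPa', fun g hg => ?_, P.eval t, ?_, ?_⟩
  · by_cases hg0 : g = 0
    · exact Or.inl hg0
    · refine Or.inr (hext.mono (hm g ?_))
      rw [Finset.mem_filter]
      exact ⟨Finset.mem_union_left _ hg, hg0⟩
  · refine eval_mem hPS ?_
    refine (Algebra.adjoin_le ?_ : Algebra.adjoin k _ ≤ S.R) ht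
    rintro f ⟨γ, ⟨hγ, h0⟩, rfl⟩
    rw [hPa.χ_eq]
    exact S.χ_mem γ (by rw [← hPa.ΓC]; exact hγ) h0
  · -- the Taylor expansion
    set w : Ω := C.χ b * Ct.y with hw
    have htw : t = C.y - w := by rw [hy]; ring
    have hwr : C'.Rep (-w) b 1 := by
      have h1 : C'.Mono (-(C.χ b)) := by
        have h2 : C.Mono (-(C.χ b)) := by
          have h3 : -(C.χ b) = C.χ b * (-1) := by ring
          rw [h3]
          refine (BF.Mono.χ hb).mul (BF.Mono.un ?_)
          exact ⟨C.R.neg_mem C.R.one_mem, neg_ne_zero.2 one_ne_zero, v.map_neg_one⟩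
        exact hCC'.mono h2
      have h2 := h1.rep
      rw [v.map_neg _ (C.χ_ne b hb), C.χ_val b hb] at h2
      have h3 := h2.mul C'.rep_y
      have h4 : -w = -(C.χ b) * C'.y := by rw [hw, hy']; ring
      rw [h4]
      simpa using h3
    set s : Finset ℕ := (Finset.Ico 1 (P.natDegree + 1)).filter fun n =>
      (hasseDeriv n P).eval C.y ≠ 0 with hs
    have hsum : P.eval C.y - P.eval t =
        ∑ n ∈ s, -((hasseDeriv n P).eval C.y * (-w) ^ n) := by
      rw [htw, eval_sub_eq, hs, Finset.sum_filter_of_ne]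
      intro n _ h1 h2
      apply h1
      rw [h2, zero_mul, neg_zero]
    have hsne : s.Nonempty := by
      rw [Finset.nonempty_iff_ne_empty]
      intro h0
      rw [h0, Finset.sum_empty] at hsum
      refine hne (P.eval t) ?_ (sub_eq_zero.1 hsum)
      refine eval_mem hPS ?_
      refine (Algebra.adjoin_le ?_ : Algebra.adjoin k _ ≤ S.R) ht
      rintro f ⟨γ, ⟨hγ, h0⟩, rfl⟩
      rw [hPa.χ_eq]
      exact S.χ_mem γ (by rw [← hPa.ΓC]; exact hγ) h0
    have hterm : ∀ n ∈ s, C'.Rep (-((hasseDeriv n P).eval C.y * (-w) ^ n))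
        (v ((hasseDeriv n P).eval C.y) + n * b) n := by
      intro n hn
      rw [hs, Finset.mem_filter, Finset.mem_Ico] at hn
      have h1 : Ct.Mono ((hasseDeriv n P).eval C.y) := by
        refine hm _ ?_
        rw [Finset.mem_filter, Finset.mem_union, Finset.mem_image]
        exact ⟨Or.inr ⟨n, Finset.mem_range.2 hn.1.2, rfl⟩, hn.2⟩
      have h2 : C'.Mono (-((hasseDeriv n P).eval C.y)) := by
        have h3 : -((hasseDeriv n P).eval C.y) = (hasseDeriv n P).eval C.y * (-1) := by ring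
        rw [h3]
        refine (hext.mono h1).mul (BF.Mono.un ?_)
        exact ⟨C'.R.neg_mem C'.R.one_mem, neg_ne_zero.2 one_ne_zero, v.map_neg_one⟩
      have h4 := h2.rep
      rw [v.map_neg _ hn.2] at h4
      have h5 := h4.mul (hwr.pow n)
      rw [mul_one, zero_add, neg_mul] at h5
      exact h5
    obtain ⟨D, hD, hrep⟩ := rep_sum hsne hterm
    rw [← hsum] at hrep
    have hD' := hD
    rw [hs, Finset.mem_filter, Finset.mem_Ico] at hD'
    set a : ℝ := v ((hasseDeriv D P).eval C.y) + D * b with ha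
    have haΓ : a ∈ C'.Γ := hrep.1
    have haΓS : a ∈ S'.Γ := by rw [← hPa'.ΓC]; exact haΓ
    have hv0 : 0 ≤ v ((hasseDeriv D P).eval C.y) :=
      C.nonneg _ (eval_mem (fun n => hPa.le (hasse_coeff_mem hPS D n)) C.y_mem) hD'.2
    have hDpos : 0 < D := hD'.1.1
    have hapos : 0 < a := by
      have h1 : (0 : ℝ) < D := by exact_mod_cast hDpos
      have h2 : 0 < (D : ℝ) * b := mul_pos h1 hb0
      linarith
    refine ⟨a, haΓS, hapos, D, hDpos, ?_, ?_, hrep⟩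
    · have h1 : D ≤ P.natDegree := by omega
      have h2 : P ≠ 0 := by
        rintro rfl
        rw [natDegree_zero] at h1
        omega
      have h3 : (P.natDegree : WithBot ℕ) < e := by
        rw [← degree_eq_natDegree h2]; exact hPd
      have h4 : P.natDegree < e := by exact_mod_cast h3
      omega
    · obtain ⟨-, u, hu, δ, hδ, hδ0, a', ha', h1⟩ := hrep
      refine ⟨C'.Γ.zero_mem, u, hu, δ, hδ, hδ0, a', ha', ?_⟩
      rw [h1, ← hPa'.χ_eq, mul_div_cancel_left₀ _ (C'.χ_ne a haΓ), C'.χ_zero, one_mul]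

end Pool.Agent.LU3S
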